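import Pool.Agent.Q271.CM.Tri

set_option autoImplicit false

/-!
# MP_fe6464: a non-bipartite graph with circular mixing threshold below its mixing threshold
-/

namespace Pool.Agent.Results.MP_fe6464_co.CubeTriangle

open Pool.Agent.Q271.CM

/-- **MP_fe6464, Q1: yes.** There is a finite connected non-bipartite graph (the cube with a
triangle attached at one vertex) with circular mixing threshold `4` and mixing threshold `5`. -/
theorem result : ∃ (V : Type) (_ : Fintype V) (G : SimpleGraph V), G.Connected ∧
    ¬ G.Colorable 2 ∧ circThr G = 4 ∧ mixThr G = 5 :=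
  ⟨VV, inferInstance, GG, conn, not_bipartite, circThr_eq, mixThr_eq⟩

end Pool.Agent.Results.MP_fe6464_co.CubeTriangle
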